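import Mathlib
import Pool.Agent.R37.Grid3

set_option autoImplicit false
set_option linter.unusedSectionVars false

/-!
Three-dimensional grids have unbounded reduced bandwidth.
-/

namespace Pool.Agent.Results.MP_1dbc65_co.GridsUnbounded

open Finset Pool.Agent.R37

section stage

variable {V : Type} [Fintype V] [DecidableEq V] {G : SimpleGraph V} {s : Setoid V}

open Classical in
/-- the size of the part of `v` -/
noncomputable def partSize (s : Setoid V) (v : V) : ℕ := (univ.filter (fun w => s v w)).card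

/-- positions of the parts -/
noncomputable def pos (s : Setoid V) (σ : Quotient s ≃ Fin (Nat.card (Quotient s))) (v : V) : ℤ :=
  ((σ (Quotient.mk s v) : ℕ) : ℤ)

open Classical in
/-- the union of the parts at distance at most `b i` from the part of `a` -/
noncomputable def ball (s : Setoid V) (σ : Quotient s ≃ Fin (Nat.card (Quotient s))) (b : ℕ)
    (a : V) (i : ℕ) : Finset V := univ.filter (fun v => |pos s σ v - pos s σ a| ≤ b * i)

variable {σ : Quotient s ≃ Fin (Nat.card (Quotient s))} {b : ℕ}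

theorem pos_eq {u v : V} : pos s σ u = pos s σ v ↔ s u v := by
  unfold pos
  constructor
  · intro h
    have h1 : σ (Quotient.mk s u) = σ (Quotient.mk s v) := Fin.ext (by exact_mod_cast h)
    exact Quotient.exact (σ.injective h1)
  · intro h
    rw [Quotient.sound h]

theorem mem_ball {a v : V} {i : ℕ} : v ∈ ball s σ b a i ↔ |pos s σ v - pos s σ a| ≤ b * i := by
  simp [ball]

theorem card_Icc_pos (a : V) (i : ℕ) :
    (Finset.Icc (pos s σ a - b * i) (pos s σ a + b * i)).card = 2 * (b * i) + 1 := by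
  rw [Int.card_Icc]
  have : pos s σ a + b * i + 1 - (pos s σ a - b * i) = ((2 * (b * i) + 1 : ℕ) : ℤ) := by
    push_cast; ring
  rw [this, Int.toNat_natCast]

theorem ball_card_le {S : ℕ} (hS : ∀ v, partSize s v ≤ S) (a : V) (i : ℕ) :
    (ball s σ b a i).card ≤ S * (2 * (b * i) + 1) := by
  classical
  rw [← card_Icc_pos (s := s) (σ := σ) (b := b) a i]
  apply card_le_mul_of_fibres _ (pos s σ)
  · intro v hv
    rw [mem_ball, abs_le] at hv
    rw [Finset.mem_Icc]
    constructor <;> linarith [hv.1, hv.2]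
  · intro z _
    by_cases hne : ((ball s σ b a i).filter (fun v => pos s σ v = z)).Nonempty
    · obtain ⟨v, hv⟩ := hne
      rw [Finset.mem_filter] at hv
      refine le_trans (Finset.card_le_card ?_) (hS v)
      intro w hw
      rw [Finset.mem_filter] at hw
      rw [Finset.mem_filter]
      exact ⟨Finset.mem_univ _, pos_eq.1 (hv.2.trans hw.2.symm)⟩
    · rw [Finset.not_nonempty_iff_eq_empty] at hne
      rw [hne]; simp

/-- growth of the balls -/
theorem ball_growth {Δ : ℕ} (hdeg : ∀ (u : V) (S : Finset V), (∀ v ∈ S, G.Adj u v) → S.card ≤ Δ)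
    (hσ : ∀ X Y, (redGraph G s).Adj X Y → |((σ X : ℕ) : ℤ) - ((σ Y : ℕ) : ℤ)| ≤ b)
    (a : V) (i : ℕ) :
    (ball s σ b a i).card + (bdry G (ball s σ b a i)).card ≤
      (ball s σ b a (i + 1)).card + Δ * (2 * (b * i) + 1) := by
  classical
  have hsub : ball s σ b a i ⊆ ball s σ b a (i + 1) := by
    intro v hv
    rw [mem_ball] at hv ⊢
    refine hv.trans ?_
    push_cast
    nlinarith
  obtain ⟨Bad, hBad⟩ : ∃ Bad, Bad = (bdry G (ball s σ b a i)).filter
      (fun y => ¬ y ∈ ball s σ b a (i + 1)) := ⟨_, rfl⟩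
  have h1 : (bdry G (ball s σ b a i)).card =
      ((bdry G (ball s σ b a i)).filter (fun y => y ∈ ball s σ b a (i + 1))).card + Bad.card := by
    rw [hBad]; exact (Finset.card_filter_add_card_filter_not _).symm
  have h2 : (ball s σ b a i).card +
      ((bdry G (ball s σ b a i)).filter (fun y => y ∈ ball s σ b a (i + 1))).card ≤
      (ball s σ b a (i + 1)).card := by
    rw [← Finset.card_union_of_disjoint]
    · apply Finset.card_le_card
      intro y hy
      rw [Finset.mem_union, Finset.mem_filter] at hy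
      rcases hy with hy | hy
      · exact hsub hy
      · exact hy.2
    · rw [Finset.disjoint_left]
      intro y hy hy'
      exact (mem_bdry.1 (Finset.mem_filter.1 hy').1).1 hy
  have h3 : Bad.card ≤ Δ * (2 * (b * i) + 1) := by
    have hx : ∀ y ∈ Bad, ∃ x ∈ ball s σ b a i, G.Adj x y := by
      intro y hy
      rw [hBad, Finset.mem_filter, mem_bdry] at hy
      exact hy.1.2
    rcases isEmpty_or_nonempty V with hV | hV
    · rw [Finset.eq_empty_of_isEmpty Bad]; simp
    choose! x hx1 hx2 using hx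
    rw [← card_Icc_pos (s := s) (σ := σ) (b := b) a i]
    apply card_le_mul_of_fibres _ (fun y => pos s σ (x y))
    · intro y hy
      have h4 := hx1 y hy
      rw [mem_ball, abs_le] at h4
      rw [Finset.mem_Icc]
      constructor <;> linarith [h4.1, h4.2]
    · intro z _
      by_cases hne : (Bad.filter (fun y => pos s σ (x y) = z)).Nonempty
      · obtain ⟨y0, hy0⟩ := hne
        rw [Finset.mem_filter] at hy0
        apply hdeg (x y0)
        intro y hy
        rw [Finset.mem_filter] at hy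
        have h5 : s (x y0) (x y) := pos_eq.1 (hy0.2.trans hy.2.symm)
        have h6 := hx2 y hy.1
        have h7 := hx1 y hy.1
        have h8 : y ∉ ball s σ b a (i + 1) := by
          have := hy.1
          rw [hBad, Finset.mem_filter] at this
          exact this.2
        by_contra hna
        apply h8
        rw [mem_ball] at h7 ⊢
        have hne : Quotient.mk s (x y) ≠ Quotient.mk s y := by
          intro h9
          have h10 : pos s σ (x y) = pos s σ y := pos_eq.2 (Quotient.exact h9)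
          apply h8
          apply hsub
          rw [mem_ball, ← h10]
          exact h7
        have hred : (redGraph G s).Adj (Quotient.mk s (x y)) (Quotient.mk s y) :=
          ⟨hne, ⟨_, _, rfl, rfl, h6⟩, ⟨x y0, y, Quotient.sound h5, rfl, hna⟩⟩
        have h9 := hσ _ _ hred
        have h10 : |pos s σ (x y) - pos s σ y| ≤ b := h9
        calc |pos s σ y - pos s σ a| ≤ |pos s σ y - pos s σ (x y)| + |pos s σ (x y) - pos s σ a| :=
              abs_sub_le _ _ _
          _ ≤ b + b * i := add_le_add (by rw [abs_sub_comm]; exact h10) h7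
          _ = b * ((i + 1 : ℕ) : ℤ) := by push_cast; ring
      · rw [Finset.not_nonempty_iff_eq_empty] at hne
        rw [hne]; simp
  omega

end stage

/-- the first stage at which some part is large -/
theorem exists_stage {V : Type} [Fintype V] [DecidableEq V] {s : ℕ → Setoid V}
    (hs : IsContractionSeq s) {S : ℕ} (hS : 2 ≤ S) (hV : S ≤ Fintype.card V) :
    ∃ i < Fintype.card V, (∃ a, S ≤ partSize (s i) a) ∧ ∀ v, partSize (s i) v ≤ 2 * S := by
  classical
  have hex : ∃ i, i < Fintype.card V ∧ ∃ a, S ≤ partSize (s i) a := by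
    have hpos : 0 < Fintype.card V := by omega
    obtain ⟨a⟩ : Nonempty V := Fintype.card_pos_iff.1 hpos
    refine ⟨Fintype.card V - 1, by omega, a, ?_⟩
    unfold partSize
    rw [hs.last]
    have : (univ.filter (fun w => (⊤ : Setoid V) a w)) = univ := by
      rw [Finset.filter_true_of_mem]
      intro w _
      rw [Setoid.top_def]
      trivial
    rw [this, Finset.card_univ]
    exact hV
  obtain ⟨i, ⟨hi, a, ha⟩, hmin⟩ : ∃ i, (i < Fintype.card V ∧ ∃ a, S ≤ partSize (s i) a) ∧
      ∀ j < i, ¬ (j < Fintype.card V ∧ ∃ a, S ≤ partSize (s j) a) :=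
    ⟨Nat.find hex, Nat.find_spec hex, fun j hj => Nat.find_min hex hj⟩
  refine ⟨i, hi, ⟨a, ha⟩, ?_⟩
  have hi0 : i ≠ 0 := by
    rintro rfl
    have : partSize (s 0) a ≤ 1 := by
      unfold partSize
      rw [← Finset.card_singleton a]
      apply Finset.card_le_card
      intro w hw
      have hw' : s 0 a w := (Finset.mem_filter.1 hw).2
      rw [hs.start, Setoid.bot_def] at hw'
      rw [Finset.mem_singleton]
      exact hw'.symm
    omega
  obtain ⟨j, rfl⟩ := Nat.exists_eq_succ_of_ne_zero hi0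
  obtain ⟨u, v, huv, hm⟩ := hs.merge j hi
  have hsmall : ∀ w, partSize (s j) w < S := by
    intro w
    by_contra hc
    exact hmin j (by omega) ⟨by omega, w, by omega⟩
  intro w
  have hsub : (univ.filter (fun z => s (j + 1) w z)) ⊆
      (univ.filter (fun z => s j w z)) ∪ (univ.filter (fun z => s j u z)) ∨
      (univ.filter (fun z => s (j + 1) w z)) ⊆
      (univ.filter (fun z => s j w z)) ∪ (univ.filter (fun z => s j v z)) := by
    by_cases hwu : s j w u
    · right
      intro z hz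
      rw [Finset.mem_filter] at hz
      rw [Finset.mem_union, Finset.mem_filter, Finset.mem_filter]
      rcases (hm w z).1 hz.2 with h | h | h
      · exact Or.inl ⟨Finset.mem_univ _, h⟩
      · exact Or.inr ⟨Finset.mem_univ _, (s j).symm h.2⟩
      · exact Or.inl ⟨Finset.mem_univ _, (s j).trans hwu ((s j).symm h.2)⟩
    · left
      intro z hz
      rw [Finset.mem_filter] at hz
      rw [Finset.mem_union, Finset.mem_filter, Finset.mem_filter]
      rcases (hm w z).1 hz.2 with h | h | h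
      · exact Or.inl ⟨Finset.mem_univ _, h⟩
      · exact absurd h.1 hwu
      · exact Or.inr ⟨Finset.mem_univ _, (s j).symm h.2⟩
  have h1 := hsmall w
  have h2 := hsmall u
  have h3 := hsmall v
  unfold partSize at h1 h2 h3 ⊢
  rcases hsub with h | h
  · have := (Finset.card_le_card h).trans (Finset.card_union_le _ _)
    omega
  · have := (Finset.card_le_card h).trans (Finset.card_union_le _ _)
    omega

/-- the numerical part -/
theorem numeric (b v : ℕ) (hb : 1 ≤ b) (hv : v = 12 * (112 * b ^ 2 + 1)) (x d : ℕ → ℕ)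
    (h0 : (v ^ 2) ^ 3 ≤ x 0) (hgrow : ∀ i, x i + d i ≤ x (i + 1) + 6 * (2 * (b * i) + 1))
    (hiso : ∀ i ≤ 56 * b * v ^ 3, x i ^ 2 ≤ d i ^ 3)
    (hup : x (56 * b * v ^ 3) ≤ 2 * (v ^ 2) ^ 3 * (2 * (b * (56 * b * v ^ 3)) + 1)) : False := by
  obtain ⟨I, hI⟩ : ∃ I, I = 56 * b * v ^ 3 := ⟨_, rfl⟩
  obtain ⟨u, hu⟩ : ∃ u, u = v ^ 2 := ⟨_, rfl⟩
  rw [← hu] at h0
  rw [← hI] at hiso
  rw [← hI, ← hu] at hup
  have hv12 : 12 ≤ v := by rw [hv]; omega
  have hu1 : 1 ≤ u := by rw [hu]; exact Nat.one_le_pow _ _ (by omega)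
  have herr : ∀ i ≤ I, 2 * (6 * (2 * (b * i) + 1)) ≤ u ^ 2 := by
    intro i hi
    have h1 : b * i ≤ b * I := Nat.mul_le_mul_left _ hi
    have h2 : u ^ 2 = v * v ^ 3 := by rw [hu]; ring
    have h3 : v * v ^ 3 = 12 * (112 * b ^ 2 + 1) * v ^ 3 := by
      conv_lhs => rw [hv]
      rw [← hv]
    have h4 : 12 * (112 * b ^ 2 + 1) * v ^ 3 = 12 * (2 * (b * I)) + 12 * v ^ 3 := by
      rw [hI]; ring
    have h5 : 1 ≤ v ^ 3 := Nat.one_le_pow _ _ (by omega)
    omega
  have key : ∀ i ≤ I, (8 * u + i) ^ 3 ≤ 512 * x i := by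
    intro i
    induction i with
    | zero =>
      intro _
      calc (8 * u + 0) ^ 3 = 512 * u ^ 3 := by ring
        _ ≤ 512 * x 0 := Nat.mul_le_mul_left _ h0
    | succ i ih =>
      intro hi
      have h1 := ih (by omega)
      obtain ⟨w, hw⟩ : ∃ w, w = 8 * u + i := ⟨_, rfl⟩
      rw [← hw] at h1
      have h2 := hiso i (by omega)
      have h3 : (w ^ 2) ^ 3 ≤ (64 * d i) ^ 3 := by
        calc (w ^ 2) ^ 3 = (w ^ 3) ^ 2 := by ring
          _ ≤ (512 * x i) ^ 2 := Nat.pow_le_pow_left h1 2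
          _ = 262144 * x i ^ 2 := by ring
          _ ≤ 262144 * d i ^ 3 := Nat.mul_le_mul_left _ h2
          _ = (64 * d i) ^ 3 := by ring
      have h4 : w ^ 2 ≤ 64 * d i := by
        by_contra hc
        push Not at hc
        exact absurd h3 (not_le.2 (Nat.pow_lt_pow_left hc (by norm_num)))
      have h5 : u ^ 2 ≤ d i := by
        have : 64 * u ^ 2 ≤ w ^ 2 := by
          rw [hw]
          calc 64 * u ^ 2 = (8 * u) ^ 2 := by ring
            _ ≤ (8 * u + i) ^ 2 := Nat.pow_le_pow_left (by omega) 2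
        omega
      have h6 := herr i (by omega)
      have h7 := hgrow i
      have h8 : (8 * u + (i + 1)) ^ 3 = w ^ 3 + 3 * w ^ 2 + 3 * w + 1 := by
        rw [hw]; ring
      have h9 : 3 * w + 1 ≤ w ^ 2 := by
        have : 8 ≤ w := by rw [hw]; omega
        nlinarith
      rw [h8]
      omega
  have h1 := key I le_rfl
  have h2 : I ^ 3 ≤ (8 * u + I) ^ 3 := Nat.pow_le_pow_left (by omega) 3
  have h3 : I ^ 3 ≤ 512 * (2 * u ^ 3 * (2 * (b * I) + 1)) :=
    h2.trans (h1.trans (Nat.mul_le_mul_left _ hup))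
  have h4 : I ^ 3 = 175616 * b ^ 3 * v ^ 9 := by rw [hI]; ring
  have h5 : 512 * (2 * u ^ 3 * (2 * (b * I) + 1)) = 1024 * (112 * b ^ 2 * v ^ 9 + v ^ 6) := by
    rw [hI, hu]; ring
  rw [h4, h5] at h3
  have h6 : v ^ 6 ≤ b ^ 2 * v ^ 9 := by
    calc v ^ 6 = 1 * v ^ 6 := (one_mul _).symm
      _ ≤ b ^ 2 * v ^ 9 := Nat.mul_le_mul (Nat.one_le_pow _ _ hb)
          (Nat.pow_le_pow_right (by omega) (by norm_num))
  have h7 : b ^ 2 * v ^ 9 ≤ b ^ 3 * v ^ 9 :=
    Nat.mul_le_mul_right _ (Nat.pow_le_pow_right hb (by norm_num))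
  have h8 : 1 ≤ b ^ 3 * v ^ 9 := Nat.one_le_iff_ne_zero.2 (by positivity)
  have h9 : 112 * b ^ 2 * v ^ 9 = 112 * (b ^ 2 * v ^ 9) := by ring
  have h10 : 175616 * b ^ 3 * v ^ 9 = 175616 * (b ^ 3 * v ^ 9) := by ring
  omega

theorem main (b : ℕ) (hb : 1 ≤ b) : ∃ n, b < reducedBandwidth (grid3 n n n) := by
  classical
  obtain ⟨v, hv⟩ : ∃ v, v = 12 * (112 * b ^ 2 + 1) := ⟨_, rfl⟩
  obtain ⟨S, hS⟩ : ∃ S, S = (v ^ 2) ^ 3 := ⟨_, rfl⟩
  obtain ⟨I, hI⟩ : ∃ I, I = 56 * b * v ^ 3 := ⟨_, rfl⟩
  obtain ⟨n, hn⟩ : ∃ n, n = 2 * S * (2 * (b * I) + 1) + 1 := ⟨_, rfl⟩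
  have hv12 : 12 ≤ v := by rw [hv]; omega
  have hS2 : 2 ≤ S := by
    rw [hS]
    have : 2 ^ 1 ≤ (v ^ 2) ^ 3 := by
      rw [← pow_mul]
      exact (Nat.pow_le_pow_left (by omega) 1).trans (Nat.pow_le_pow_right (by omega) (by norm_num))
    omega
  refine ⟨n, ?_⟩
  by_contra hcon
  push Not at hcon
  obtain ⟨s, hs, hbw⟩ := exists_reducedBandwidth (grid3 n n n)
  have hSn : S ≤ n := by
    rw [hn]
    have h1 : S * 1 ≤ 2 * S * (2 * (b * I) + 1) := Nat.mul_le_mul (by omega) (by omega)
    omega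
  have hcard : S ≤ Fintype.card (Fin n × Fin n × Fin n) := by
    rw [Fintype.card_prod, Fintype.card_prod, Fintype.card_fin]
    calc S ≤ n := hSn
      _ ≤ n * (n * n) := Nat.le_mul_of_pos_right _ (by
        have : 0 < n := by omega
        positivity)
  obtain ⟨i, hi, ⟨a, ha⟩, hsz⟩ := exists_stage hs hS2 hcard
  obtain ⟨σ, hσ⟩ := exists_bandwidth (redGraph (grid3 n n n) (s i))
  have hσ' : ∀ X Y, (redGraph (grid3 n n n) (s i)).Adj X Y →
      |((σ X : ℕ) : ℤ) - ((σ Y : ℕ) : ℤ)| ≤ b := by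
    intro X Y hXY
    refine (hσ X Y hXY).trans ?_
    exact_mod_cast (hbw i hi).trans hcon
  have hbd : ∀ j ≤ I, (ball (s i) σ b a j).card ≤ 2 * S * (2 * (b * I) + 1) := by
    intro j hj
    refine (ball_card_le hsz a j).trans (Nat.mul_le_mul_left _ ?_)
    have : b * j ≤ b * I := Nat.mul_le_mul_left _ hj
    omega
  apply numeric b v hb hv (fun j => (ball (s i) σ b a j).card)
    (fun j => (bdry (grid3 n n n) (ball (s i) σ b a j)).card)
  · rw [← hS]
    refine ha.trans (Finset.card_le_card ?_)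
    intro w hw
    rw [Finset.mem_filter] at hw
    rw [mem_ball, pos_eq.2 hw.2]
    simp
  · intro j
    exact ball_growth (Δ := 6) (fun u T hT => grid3_degree u T hT) hσ' a j
  · intro j hj
    rw [← hI] at hj
    apply grid3_isoperimetric
    have := hbd j hj
    omega
  · rw [← hI, ← hS]
    exact hbd I le_rfl

/-- The class of all three-dimensional grids has unbounded reduced bandwidth. -/
theorem result : ∀ k : ℕ, ∃ a b c : ℕ, 1 ≤ a ∧ 1 ≤ b ∧ 1 ≤ c ∧
    k < reducedBandwidth (grid3 a b c) := by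
  intro k
  obtain ⟨n, hn⟩ := main (k + 1) (by omega)
  have hn0 : 1 ≤ n := by
    by_contra h0
    have h0' : n = 0 := by omega
    subst h0'
    have : reducedBandwidth (grid3 0 0 0) ≤ 0 := by
      obtain ⟨s, hs⟩ := exists_contractionSeq (Fin 0 × Fin 0 × Fin 0)
      apply Nat.sInf_le
      refine ⟨s, hs, fun i hi => ?_⟩
      have h1 : Fintype.card (Fin 0 × Fin 0 × Fin 0) = 0 := by simp
      omega
    omega
  exact ⟨n, n, n, hn0, hn0, hn0, by omega⟩

end Pool.Agent.Results.MP_1dbc65_co.GridsUnbounded
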